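import Mathlib
import Pool.Agent.H11.HypDom.Defs
import Pool.Agent.H11.HypDom.Asym

open Pool.Agent.H11.HypDom

theorem Pool.Agent.Results.MP_869403_co.OneUpper.result :
    ∀ r n : ℕ, 3 ≤ r → r ≤ n →
      (upperDirDom r 1 (completeHyp n r) : ℝ)
        ≤ (r + 5) * (Real.log n / Real.log (Real.log n)) :=
  fun _ _ hr hn => one_upper hr hn
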