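import Mathlib
import Pool.Agent.H11.HypDom.Defs
import Pool.Agent.H11.HypDom.Asym

open Pool.Agent.H11.HypDom

theorem Pool.Agent.Results.MP_869403_co.Theta.result :
    ∀ r p : ℕ, 1 ≤ p → p ≤ r - 1 → r + 2 ≤ (p + 2) * 2 ^ (p - 1) → ∀ n : ℕ, r ≤ n →
      (1 / 5 : ℝ) * Real.log n ≤ (upperDirDom r p (completeHyp n r) : ℝ) ∧
      (upperDirDom r p (completeHyp n r) : ℝ) ≤ 6 * r * Real.log n := by
  intro r p hp hpr hr n hn
  exact ⟨theta_lower (by omega) hp hr, theta_upper (by omega) hp (by omega)⟩
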